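import Pool.Agent.Lib.MP_09eaec_ag.Mg.G025
import Pool.Agent.Lib.MP_09eaec_ag.Mg.G021
import Pool.Agent.Lib.MP_09eaec_ag.Mg.G030
import Pool.Agent.Lib.MP_09eaec_ag.Mg.G026
import Pool.Agent.Lib.MP_09eaec_ag.Mg.G022
import Pool.Agent.Lib.MP_09eaec_ag.Mg.G020
import Pool.Agent.Lib.MP_09eaec_ag.Mg.G031
import Pool.Agent.Lib.MP_09eaec_ag.HE.MainHE
import Pool.Agent.Lib.MP_09eaec_ag.GG.Main
import Pool.Agent.Lib.MP_09eaec_ag.Mg.G017
import Pool.Agent.Lib.MP_09eaec_ag.BG.MainBG

/-!
# The main theorems (assembled by helper22)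
-/

set_option autoImplicit false

namespace Pool.Agent.MP_09eaec.GG.G3

open Module

universe u v

variable {k : Type u} {K : Type v} [Field k] [Field K] [Algebra k K]
variable {W : Type v} [AddCommGroup W] [Module K W] [Module k W] [IsScalarTower k K W]
variable {A : Type v} [AddCommGroup A] [Module K A] [Module k A] [IsScalarTower k K A]
variable {B : Type v} [AddCommGroup B] [Module K B] [Module k B] [IsScalarTower k K B]

theorem isLeast_top [IsAlgClosed k] [CharZero k] (hK : IsCurveField k K) {g : ℤ} (hg : 3 ≤ g)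
    (hgen : IsGenus k K g) {n d : ℕ} (hn : 2 ≤ n) (hd : (d : ℤ) = (g - 1) * n) :
    IsLeast (stableDegrees k K n d) ((2 * g - 3) * n + 1) := by
  obtain ⟨_, rfl⟩ := curveG_of_isGenus hK (by omega) hgen
  rcases pencil_or_nonhyp (k := k) (K := K) (by omega) with ⟨H, x, y, hp⟩ | hnh
  · obtain ⟨j, hj⟩ : ∃ j : ℕ, (j : ℤ) = gen k K - 2 := ⟨(gen k K - 2).toNat, by omega⟩
    have h := he_mult hp hn (j := j) (by omega) (by omega)
    have hd' : (j + 1) * n = d := by
      have : (((j + 1) * n : ℕ) : ℤ) = d := by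
        rw [hd]
        push_cast
        rw [hj]
        ring
      exact_mod_cast this
    have hv : ((2 * j + 1) * n + 1 : ℤ) = (2 * gen k K - 3) * n + 1 := by
      rw [hj]
      ring
    rw [hd', hv] at h
    exact h
  · constructor
    · obtain ⟨E, hE, hdeg, h0⟩ := exists_up (k := k) (K := K) (by omega) (n := n) (by omega)
      have h := stable_mem (d := d) (by omega : 1 ≤ n) hE (by rw [hd]; linarith)
      rw [hdeg] at h
      have h2 : (n : ℤ) * (2 * gen k K - 3) + 1 = (2 * gen k K - 3) * n + 1 := by ring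
      rwa [h2] at h
    · intro e he
      obtain ⟨E, V, α, hα, hV, hfV, rfl, hst⟩ := of_mem_stableDegrees he
      have hrank : finrank K (Fin n → K) = n := Module.finrank_fin_fun K
      have hk : (finrank k V : ℤ) = (gen k K - 1) * finrank K (Fin n → K) := by
        rw [hfV, hrank, hd]
      have h1 := low_top_nh hg hnh hV hα (by rw [hrank]; exact hn) hst hk
      have h2 := top_strict hV hα (by rw [hrank]; exact hn) hst hk
      rw [hrank] at h1 h2
      omega

private theorem MainG3_low [CurveG k K] (hg : gen k K = 3) {n d : ℕ} (hn : 2 ≤ n) (hd : n < d)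
    (hd2 : d ≤ 2 * n) (h3 : n = 2 → 4 ≤ d) {e : ℤ} (he : e ∈ stableDegrees k K n d) :
    3 * (d : ℤ) ≤ e + 2 * n ∨ (3 * (d : ℤ) ≤ 2 * e ∧
      ∃ α : ℝ, 0 < α ∧ (4 + 3 * α) * n < 2 * ((e : ℝ) + α * d)) := by
  obtain ⟨E, V, α, hα, hV, hfV, rfl, hst⟩ := of_mem_stableDegrees he
  have hrank : finrank K (Fin n → K) = n := Module.finrank_fin_fun K
  have h := three_k_le hg hV hα (by rw [hrank]; exact hn) hst (by rw [hrank, hfV]; exact hd)
    (by rw [hrank, hfV]; exact hd2) (by rw [hrank, hfV]; exact h3)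
  rw [hrank, hfV] at h
  rcases h with h | ⟨h, h'⟩
  · exact Or.inl h
  · exact Or.inr ⟨h, α, hα, h'⟩

private theorem MainG3_low' [CurveG k K] (hg : gen k K = 3) {n d : ℕ} (hn : 2 ≤ n) (hd : n < d)
    (hd' : 3 * d ≤ 4 * n) {e : ℤ} (he : e ∈ stableDegrees k K n d) : 3 * d - 2 * n ≤ e := by
  rcases MainG3_low hg hn hd (by omega) (by omega) he with h | ⟨h, α, hα, h'⟩
  · linarith
  · have h1 : (3 : ℝ) * d ≤ 4 * n := by exact_mod_cast hd'
    have h2 : (0 : ℝ) < n := by exact_mod_cast (by omega : 0 < n)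
    have h3 : α * (2 * d) ≤ α * (3 * n) := mul_le_mul_of_nonneg_left (by linarith) hα.le
    have h4 : (2 : ℝ) * n < e := by nlinarith
    have h5 : (2 : ℤ) * n < e := by exact_mod_cast h4
    omega

theorem isLeast_low3 [IsAlgClosed k] [CharZero k] (hK : IsCurveField k K) (hgen : IsGenus k K 3)
    {n d : ℕ} (hn : 2 ≤ n) (hd : n < d) (hd' : 3 * d ≤ 4 * n) :
    IsLeast (stableDegrees k K n d) (3 * d - 2 * n) := by
  obtain ⟨_, hg⟩ := curveG_of_isGenus hK (by omega) hgen
  refine ⟨?_, fun e he => MainG3_low' hg hn hd hd' he⟩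
  obtain ⟨m, rfl⟩ : ∃ m, d = n + m := ⟨d - n, by omega⟩
  obtain ⟨E, V, α, hα, hV, hfV, hdeg, hst⟩ := low_span (k := k) (K := K) (by omega) (n := n)
    (m := m) (by omega) (by rw [hg]; omega)
  have h := mem_stableDegrees (by omega) hα hV hfV hst
  have h2 := MainG3_low' hg hn hd hd' h
  rw [hg] at hdeg
  have h3 : E.deg = 3 * ((n + m : ℕ) : ℤ) - 2 * n := by
    push_cast at h2 ⊢
    linarith
  rwa [h3] at h

private theorem MainG3_ceil {d : ℕ} {e : ℤ} (h : 3 * (d : ℤ) ≤ 2 * e) :
    (d : ℤ) + ⌈(d : ℚ) / 2⌉ ≤ e := by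
  have h1 : ⌈(d : ℚ) / 2⌉ ≤ e - d := by
    rw [Int.ceil_le]
    have : (3 : ℚ) * d ≤ 2 * e := by exact_mod_cast h
    push_cast
    linarith
  linarith

private theorem MainG3_ceil_even (a : ℕ) : ⌈((2 * a : ℕ) : ℚ) / 2⌉ = a := by
  have : ((2 * a : ℕ) : ℚ) / 2 = ((a : ℤ) : ℚ) := by
    push_cast
    ring
  rw [this, Int.ceil_intCast]

private theorem MainG3_ceil_odd (a : ℕ) : ⌈((2 * a + 1 : ℕ) : ℚ) / 2⌉ = a + 1 := by
  rw [Int.ceil_eq_iff]
  push_cast
  constructor <;> linarith

theorem isLeast_mid3 [IsAlgClosed k] [CharZero k] (hK : IsCurveField k K) (hgen : IsGenus k K 3)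
    {n d : ℕ} (hn : 2 ≤ n) (hd : 4 * n ≤ 3 * d) (hd' : d < 2 * n) (h23 : ¬ (n = 2 ∧ d = 3)) :
    IsLeast (stableDegrees k K n d) (d + ⌈(d : ℚ) / 2⌉) := by
  obtain ⟨_, hg⟩ := curveG_of_isGenus hK (by omega) hgen
  constructor
  · rcases Nat.even_or_odd' d with ⟨a, rfl | rfl⟩
    · rw [MainG3_ceil_even]
      obtain ⟨m, hm⟩ : ∃ m, n = a + m := ⟨n - a, by omega⟩
      rcases Nat.lt_or_ge (3 * m) n with h | h
      · obtain ⟨E, hE, hdeg, h0⟩ := exists_even hg (n := n) (m := m) (by omega) h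
        have h2 := stable_mem (d := 2 * a) (by omega : 1 ≤ n) hE (by
          push_cast
          have : (n : ℤ) = a + m := by exact_mod_cast hm
          linarith)
        rw [hdeg] at h2
        have h3 : 3 * (n : ℤ) - 3 * m = ((2 * a : ℕ) : ℤ) + a := by
          push_cast
          have : (n : ℤ) = a + m := by exact_mod_cast hm
          linarith
        rwa [h3] at h2
      · have h1 : 3 * m = n := by omega
        have h2 := (isLeast_low3 hK hgen (n := n) (d := 2 * a) hn (by omega) (by omega)).1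
        have h3 : 3 * ((2 * a : ℕ) : ℤ) - 2 * n = ((2 * a : ℕ) : ℤ) + a := by
          push_cast
          omega
        rwa [h3] at h2
    · rw [MainG3_ceil_odd]
      obtain ⟨m, hm⟩ : ∃ m, n = a + 1 + m := ⟨n - (a + 1), by omega⟩
      have hmz : (n : ℤ) = a + 1 + m := by exact_mod_cast hm
      rcases Nat.eq_zero_or_pos m with rfl | hm0
      · obtain ⟨E, hE, hdeg, h0⟩ := exists_down (k := k) (K := K) (by omega) (n := n) (by omega)
        rw [hg] at hdeg h0
        have h2 := stable_mem (d := 2 * a + 1) (by omega : 1 ≤ n) hE (by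
          push_cast at hmz ⊢
          linarith)
        rw [hdeg] at h2
        have h3 : (n : ℤ) * (2 * 3 - 3) - 1 = ((2 * a + 1 : ℕ) : ℤ) + (a + 1) := by
          push_cast at hmz ⊢
          linarith
        rwa [h3] at h2
      · obtain ⟨E, hE, hdeg, h0⟩ := exists_odd hg (n := n) (m := m) (by omega) (by omega)
        have h2 := stable_mem (d := 2 * a + 1) (by omega : 1 ≤ n) hE (by
          push_cast
          linarith)
        rw [hdeg] at h2
        have h3 : 3 * (n : ℤ) - 3 * m - 1 = ((2 * a + 1 : ℕ) : ℤ) + (a + 1) := by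
          push_cast
          linarith
        rwa [h3] at h2
  · intro e he
    refine MainG3_ceil ?_
    rcases MainG3_low hg hn (by omega) (by omega) (by omega) he with h | ⟨h, -⟩
    · have : (4 : ℤ) * n ≤ 3 * d := by exact_mod_cast hd
      linarith
    · exact h

theorem isLeast_23 [IsAlgClosed k] [CharZero k] (hK : IsCurveField k K) (hgen : IsGenus k K 3) :
    IsLeast (stableDegrees k K 2 3) 4 := by
  obtain ⟨_, hg⟩ := curveG_of_isGenus hK (by omega) hgen
  constructor
  · obtain ⟨E, V, α, hα, hV, hfV, hdeg, hst⟩ := exists_23 (k := k) (K := K) hg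
    have h := mem_stableDegrees (by omega) hα hV hfV hst
    rwa [hdeg] at h
  · intro e he
    obtain ⟨E, V, α, hα, hV, hfV, rfl, hst⟩ := of_mem_stableDegrees he
    have hrank : finrank K (Fin 2 → K) = 2 := Module.finrank_fin_fun K
    have h := dich hg hV hα (by rw [hrank]) hst (by rw [hrank, hfV]; omega)
    rw [hrank, hfV] at h
    rcases h with h | h | ⟨-, -, h⟩
    · push_cast at h
      linarith
    · push_cast at h
      have h1 : (4 : ℝ) < E.deg := by linarith
      have h2 : (4 : ℤ) < E.deg := by exact_mod_cast h1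
      omega
    · exact h

end Pool.Agent.MP_09eaec.GG.G3
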